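import Pool.Agent.Helper20.FS.St3
import Pool.Agent.Helper20.FA.Semi

/-!
# Project SM, module UB
-/

set_option autoImplicit false

open Topology Filter

namespace Pool.Agent.Helper71.SL

open Pool.Agent.Helper20.FA Pool.Agent.Helper20.FR Pool.Agent.Helper20.FS

attribute [local instance] IsFrechet.tag IsFrechet.csm IsFrechet.lcs IsFrechet.metr

private theorem cofinal {A : Type} [AddCommGroup A] [Module ℂ A] [TopologicalSpace A]
    [IsFrechet A] : ∃ π : ℕ → Seminorm ℂ A, (∀ i, Continuous (π i)) ∧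
      ∀ q : Seminorm ℂ A, Continuous q → ∃ i, ∀ x, q x ≤ π i x := by
  obtain ⟨V, hV⟩ := (𝓝 (0 : A)).exists_antitone_basis
  have h1 : ∀ n, ∃ v : Seminorm ℂ A, Continuous v ∧ ∀ x, v x < 1 → x ∈ V n := fun n =>
    exists_seminorm (hV.mem n)
  choose π hπ hπV using h1
  refine ⟨π, hπ, fun q hq => ?_⟩
  have h2 : {x : A | q x < 1} ∈ 𝓝 (0 : A) := by
    have h3 : IsOpen {x : A | q x < 1} := isOpen_lt hq continuous_const
    refine h3.mem_nhds ?_
    show q 0 < 1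
    rw [map_zero]
    exact one_pos
  obtain ⟨i, -, hi⟩ := hV.toHasBasis.mem_iff.1 h2
  refine ⟨i, fun x => ?_⟩
  by_contra hcon
  push Not at hcon
  obtain ⟨t, ht1, ht2⟩ := exists_between hcon
  have ht0 : 0 < t := lt_of_le_of_lt (apply_nonneg _ _) ht1
  have hsc : ∀ w : Seminorm ℂ A, w ((((t : ℝ) : ℂ))⁻¹ • x) = t⁻¹ * w x := by
    intro w
    rw [map_smul_eq_mul, norm_inv, Complex.norm_real, Real.norm_of_nonneg ht0.le]
  have h4 : π i ((((t : ℝ) : ℂ))⁻¹ • x) < 1 := by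
    rw [hsc, inv_mul_lt_iff₀ ht0, mul_one]
    exact ht1
  have h5 : q ((((t : ℝ) : ℂ))⁻¹ • x) < 1 := hi (hπV i _ h4)
  rw [hsc, inv_mul_lt_iff₀ ht0, mul_one] at h5
  linarith

section ring

variable {A : Type} [CommRing A] [Algebra ℂ A]

private def Cau (r : Seminorm ℂ A) (α : ℕ → A) : Prop :=
  ∀ ε : ℝ, 0 < ε → ∃ N, ∀ k ≥ N, ∀ m ≥ N, r (α k - α m) ≤ ε

private theorem Cau.bdd {r : Seminorm ℂ A} {α : ℕ → A} (h : Cau r α) :
    ∃ M : ℝ, 0 < M ∧ ∃ N, ∀ k ≥ N, r (α k) ≤ M := by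
  obtain ⟨N, hN⟩ := h 1 one_pos
  refine ⟨r (α N) + 1, by have := apply_nonneg r (α N); linarith, N, fun k hk => ?_⟩
  have h1 := hN k hk N le_rfl
  have h2 : α k = α N + (α k - α N) := by ring
  rw [h2]
  exact (map_add_le_add r _ _).trans (by linarith)

private def RR (r : Seminorm ℂ A) (hm : ∀ a b, r (a * b) ≤ r a * r b) : Subalgebra ℂ (ℕ → A) where
  carrier := {α | Cau r α}
  mul_mem' := by
    intro α β hα hβ ε hε
    obtain ⟨M, hM0, N1, hM⟩ := Cau.bdd hα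
    obtain ⟨M', hM'0, N2, hM'⟩ := Cau.bdd hβ
    obtain ⟨N3, h3⟩ := hα (ε / (2 * M')) (by positivity)
    obtain ⟨N4, h4⟩ := hβ (ε / (2 * M)) (by positivity)
    refine ⟨max (max N1 N2) (max N3 N4), fun k hk m hm' => ?_⟩
    have k1 : N1 ≤ k := le_trans (le_max_left _ _) (le_trans (le_max_left _ _) hk)
    have k3 : N3 ≤ k := le_trans (le_max_left _ _) (le_trans (le_max_right _ _) hk)
    have k4 : N4 ≤ k := le_trans (le_max_right _ _) (le_trans (le_max_right _ _) hk)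
    have m2 : N2 ≤ m := le_trans (le_max_right _ _) (le_trans (le_max_left _ _) hm')
    have m3 : N3 ≤ m := le_trans (le_max_left _ _) (le_trans (le_max_right _ _) hm')
    have m4 : N4 ≤ m := le_trans (le_max_right _ _) (le_trans (le_max_right _ _) hm')
    have e : (α * β) k - (α * β) m = α k * (β k - β m) + (α k - α m) * β m := by
      simp only [Pi.mul_apply]
      ring
    rw [e]
    have a1 : r (α k * (β k - β m)) ≤ M * (ε / (2 * M)) :=
      (hm _ _).trans (mul_le_mul (hM k k1) (h4 k k4 m m4) (apply_nonneg _ _) hM0.le)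
    have a2 : r ((α k - α m) * β m) ≤ (ε / (2 * M')) * M' :=
      (hm _ _).trans (mul_le_mul (h3 k k3 m m3) (hM' m m2) (apply_nonneg _ _) (by positivity))
    have e1 : M * (ε / (2 * M)) = ε / 2 := by field_simp
    have e2 : (ε / (2 * M')) * M' = ε / 2 := by field_simp
    exact (map_add_le_add r _ _).trans (by linarith)
  add_mem' := by
    intro α β hα hβ ε hε
    obtain ⟨N3, h3⟩ := hα (ε / 2) (by positivity)
    obtain ⟨N4, h4⟩ := hβ (ε / 2) (by positivity)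
    refine ⟨max N3 N4, fun k hk m hm' => ?_⟩
    have e : (α + β) k - (α + β) m = (α k - α m) + (β k - β m) := by
      simp only [Pi.add_apply]
      ring
    rw [e]
    have a1 := h3 k (le_trans (le_max_left _ _) hk) m (le_trans (le_max_left _ _) hm')
    have a2 := h4 k (le_trans (le_max_right _ _) hk) m (le_trans (le_max_right _ _) hm')
    exact (map_add_le_add r _ _).trans (by linarith)
  algebraMap_mem' := by
    intro c ε hε
    refine ⟨0, fun k _ m _ => ?_⟩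
    have e : (algebraMap ℂ (ℕ → A) c) k - (algebraMap ℂ (ℕ → A) c) m = 0 := by
      simp
    rw [e, map_zero]
    exact hε.le

private theorem exists_lim (p r : Seminorm ℂ A) (hpr : ∀ x, p x ≤ r x) {α : ℕ → A}
    (h : Cau r α) : ∃ L : ℝ, Tendsto (fun k => p (α k)) atTop (𝓝 L) := by
  apply cauchySeq_tendsto_of_complete
  rw [Metric.cauchySeq_iff]
  intro ε hε
  obtain ⟨N, hN⟩ := h (ε / 2) (by positivity)
  refine ⟨N, fun k hk m hm => ?_⟩
  rw [Real.dist_eq]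
  have h1 : |p (α k) - p (α m)| ≤ p (α k - α m) := abs_sub_map_le_sub p _ _
  have h2 := hpr (α k - α m)
  have h3 := hN k hk m hm
  linarith

private noncomputable def Pf (p r : Seminorm ℂ A) (hm : ∀ a b, r (a * b) ≤ r a * r b)
    (hpr : ∀ x, p x ≤ r x) (α : RR r hm) : ℝ := (exists_lim p r hpr α.2).choose

private theorem Pf_spec (p r : Seminorm ℂ A) (hm : ∀ a b, r (a * b) ≤ r a * r b)
    (hpr : ∀ x, p x ≤ r x) (α : RR r hm) :
    Tendsto (fun k => p (α.1 k)) atTop (𝓝 (Pf p r hm hpr α)) :=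
  (exists_lim p r hpr α.2).choose_spec

private noncomputable def PP (p r : Seminorm ℂ A) (hm : ∀ a b, r (a * b) ≤ r a * r b)
    (hpr : ∀ x, p x ≤ r x) : Seminorm ℂ (RR r hm) :=
  Seminorm.of (Pf p r hm hpr)
    (fun x y => le_of_tendsto_of_tendsto' (Pf_spec p r hm hpr (x + y))
      ((Pf_spec p r hm hpr x).add (Pf_spec p r hm hpr y)) fun k => map_add_le_add p _ _)
    (fun c x => tendsto_nhds_unique (Pf_spec p r hm hpr (c • x))
      (((Pf_spec p r hm hpr x).const_mul ‖c‖).congr fun k => (map_smul_eq_mul p c _).symm))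

private theorem PP_spec (p r : Seminorm ℂ A) (hm : ∀ a b, r (a * b) ≤ r a * r b)
    (hpr : ∀ x, p x ≤ r x) (α : RR r hm) :
    Tendsto (fun k => p (α.1 k)) atTop (𝓝 (PP p r hm hpr α)) := Pf_spec p r hm hpr α

private theorem PP_mul (p r : Seminorm ℂ A) (hm : ∀ a b, r (a * b) ≤ r a * r b)
    (hpm : ∀ a b, p (a * b) ≤ p a * p b) (hpr : ∀ x, p x ≤ r x) (α β : RR r hm) :
    PP p r hm hpr (α * β) ≤ PP p r hm hpr α * PP p r hm hpr β :=
  le_of_tendsto_of_tendsto' (PP_spec p r hm hpr (α * β))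
    ((PP_spec p r hm hpr α).mul (PP_spec p r hm hpr β)) fun k => hpm _ _

private def II (q r : Seminorm ℂ A) (hm : ∀ a b, r (a * b) ≤ r a * r b) : Ideal (RR r hm) where
  carrier := {α | ∃ C : ℝ, ∀ b, ∀ ε : ℝ, 0 < ε → ∃ N, ∀ k ≥ N, r (α.1 k * b) ≤ C * q b + ε}
  zero_mem' := ⟨0, fun b ε hε => ⟨0, fun k _ => by
    have : ((0 : RR r hm).1 k * b) = 0 := by simp
    rw [this, map_zero, zero_mul, zero_add]
    exact hε.le⟩⟩
  add_mem' := by
    rintro x y ⟨C, hC⟩ ⟨D, hD⟩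
    refine ⟨C + D, fun b ε hε => ?_⟩
    obtain ⟨N1, h1⟩ := hC b (ε / 2) (by positivity)
    obtain ⟨N2, h2⟩ := hD b (ε / 2) (by positivity)
    refine ⟨max N1 N2, fun k hk => ?_⟩
    have e : (x + y).1 k * b = x.1 k * b + y.1 k * b := add_mul _ _ _
    rw [e]
    have a1 := h1 k (le_trans (le_max_left _ _) hk)
    have a2 := h2 k (le_trans (le_max_right _ _) hk)
    exact (map_add_le_add r _ _).trans (by linarith)
  smul_mem' := by
    rintro c x ⟨C, hC⟩
    obtain ⟨M, hM0, N0, hM⟩ := Cau.bdd c.2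
    refine ⟨M * C, fun b ε hε => ?_⟩
    obtain ⟨N1, h1⟩ := hC b (ε / M) (by positivity)
    refine ⟨max N0 N1, fun k hk => ?_⟩
    have e : (c • x).1 k * b = c.1 k * (x.1 k * b) := mul_assoc _ _ _
    rw [e]
    have a1 := h1 k (le_trans (le_max_right _ _) hk)
    have a2 := hM k (le_trans (le_max_left _ _) hk)
    have a3 : r (c.1 k * (x.1 k * b)) ≤ M * (C * q b + ε / M) :=
      (hm _ _).trans (mul_le_mul a2 a1 (apply_nonneg _ _) hM0.le)
    have e2 : M * (C * q b + ε / M) = M * C * q b + ε := by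
      field_simp
    linarith

private def cst (r : Seminorm ℂ A) (hm : ∀ a b, r (a * b) ≤ r a * r b) : A →ₐ[ℂ] RR r hm :=
  (Pi.constAlgHom ℂ ℕ A).codRestrict (RR r hm) fun x ε hε => ⟨0, fun k _ m _ => by
    have e : (Pi.constAlgHom ℂ ℕ A x) k - (Pi.constAlgHom ℂ ℕ A x) m = 0 := by
      show x - x = 0
      exact sub_self x
    rw [e, map_zero]
    exact hε.le⟩

private theorem cst_apply (r : Seminorm ℂ A) (hm : ∀ a b, r (a * b) ≤ r a * r b) (a : A) (k : ℕ) :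
    (cst r hm a).1 k = a := rfl

private theorem tele {r : Seminorm ℂ A} {α : ℕ → A}
    (h : ∀ k, r (α (k + 1) - α k) ≤ (1 / 2) ^ k) (k n : ℕ) :
    r (α (k + n) - α k) ≤ 2 * (1 / 2) ^ k - 2 * (1 / 2) ^ (k + n) := by
  induction n with
  | zero => simp
  | succ n ih =>
    have e : α (k + (n + 1)) - α k = (α (k + n + 1) - α (k + n)) + (α (k + n) - α k) := by
      rw [← add_assoc]
      ring
    rw [e]
    have h1 := h (k + n)
    have e2 : (1 / 2 : ℝ) ^ (k + (n + 1)) = (1 / 2) ^ (k + n) / 2 := by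
      rw [← add_assoc, pow_succ]
      ring
    rw [e2]
    exact (map_add_le_add r _ _).trans (by linarith)

private theorem cau_of_fast {r : Seminorm ℂ A} {α : ℕ → A}
    (h : ∀ k, r (α (k + 1) - α k) ≤ (1 / 2) ^ k) : Cau r α := by
  intro ε hε
  obtain ⟨N, hN⟩ := exists_pow_lt_of_lt_one (show 0 < ε / 4 by positivity)
    (show (1 / 2 : ℝ) < 1 by norm_num)
  have h1 : ∀ k ≥ N, r (α k - α N) ≤ ε / 2 := by
    intro k hk
    obtain ⟨n, rfl⟩ := Nat.exists_eq_add_of_le hk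
    have h2 := tele h N n
    have h3 : (0 : ℝ) < (1 / 2) ^ (N + n) := by positivity
    linarith
  refine ⟨N, fun k hk m hm => ?_⟩
  have e : α k - α m = (α k - α N) - (α m - α N) := by ring
  rw [e]
  exact (map_sub_le_add r _ _).trans (by linarith [h1 k hk, h1 m hm])

end ring

theorem hUB (hGE : StGE) : StUB := by
  intro A _ _ _ _ _ h1 h2 p hp
  obtain ⟨π, hπ, hπq⟩ := cofinal (A := A)
  have claim : ∃ q : Seminorm ℂ A, Continuous q ∧ ∀ r : Seminorm ℂ A, Good r →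
      (∀ x, p x ≤ r x) → ∀ χ : A →ₐ[ℂ] ℂ, (∀ a, ‖χ a‖ ≤ p a) →
        ∃ (α : ℕ → A) (C : ℝ), QB q r C α ∧ ∀ k, ‖χ (α k) - 1‖ ≤ (1 / 2) ^ k := by
    by_contra hcon
    have h3 : ∀ i, ∃ (r : Seminorm ℂ A) (χ : A →ₐ[ℂ] ℂ), Good r ∧
        (∀ x, p x ≤ r x) ∧ (∀ a, ‖χ a‖ ≤ p a) ∧
        ¬ ∃ (α : ℕ → A) (C : ℝ), QB (π i) r C α ∧ ∀ k, ‖χ (α k) - 1‖ ≤ (1 / 2) ^ k := by
      intro i
      by_contra hi
      apply hcon
      refine ⟨π i, hπ i, fun r hr hpr χ hχ => ?_⟩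
      by_contra hno
      exact hi ⟨r, χ, hr, hpr, hχ, hno⟩
    choose r χ hr hpr hχ hno using h3
    obtain ⟨q, hq, H⟩ := h2 χ p hp.1 hχ
    obtain ⟨i, hi⟩ := hπq q hq
    obtain ⟨α, C, hα, hα1⟩ := H (r i) (hr i) (hpr i) i
    refine hno i ⟨α, |C|, ⟨hα.1, fun k b => ?_⟩, hα1⟩
    have e1 := hα.2 k b
    have e2 : C * q b ≤ |C| * q b :=
      mul_le_mul_of_nonneg_right (le_abs_self _) (apply_nonneg _ _)
    have e3 : |C| * q b ≤ |C| * π i b := mul_le_mul_of_nonneg_left (hi b) (abs_nonneg _)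
    linarith
  obtain ⟨q, hq, H⟩ := claim
  refine ⟨q, hq, fun r hr => ?_⟩
  have hc : Continuous (r + p : Seminorm ℂ A) := by
    have : ⇑(r + p : Seminorm ℂ A) = fun x => r x + p x := rfl
    rw [this]
    exact hr.1.add hp.1
  obtain ⟨r', hr', hle⟩ := h1 (r + p) hc
  have hle' : ∀ x, r x + p x ≤ r' x := hle
  have hrr : ∀ x, r x ≤ r' x := fun x => by
    have := apply_nonneg p x
    linarith [hle' x]
  have hpr : ∀ x, p x ≤ r' x := fun x => by
    have := apply_nonneg r x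
    linarith [hle' x]
  -- an element of the ideal close to one
  have key : ∃ α ∈ II q r' hr'.2, PP p r' hr'.2 hpr (1 - α) < 1 / 2 := by
    by_contra hno
    have h4 : ∀ x ∈ II q r' hr'.2, 1 / 2 ≤ PP p r' hr'.2 hpr (1 - x) := by
      intro x hx
      by_contra hlt
      exact hno ⟨x, hx, not_le.1 hlt⟩
    obtain ⟨χ', hχ', hχI⟩ := hGE (RR r' hr'.2) (PP p r' hr'.2 hpr)
      (PP_mul p r' hr'.2 hp.2 hpr) (II q r' hr'.2) h4
    have hχ : ∀ a, ‖(χ'.comp (cst r' hr'.2)) a‖ ≤ p a := by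
      intro a
      have e1 : PP p r' hr'.2 hpr (cst r' hr'.2 a) = p a :=
        tendsto_nhds_unique (PP_spec p r' hr'.2 hpr (cst r' hr'.2 a)) tendsto_const_nhds
      rw [← e1]
      exact hχ' _
    obtain ⟨α, C, hα, hα1⟩ := H r' hr' hpr (χ'.comp (cst r' hr'.2)) hχ
    have hcau : Cau r' α := cau_of_fast hα.1
    obtain ⟨a, ha⟩ : ∃ a : RR r' hr'.2, a = ⟨α, hcau⟩ := ⟨_, rfl⟩
    have ha1 : ∀ k, a.1 k = α k := fun k => by rw [ha]
    have haI : a ∈ II q r' hr'.2 := by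
      refine ⟨C, fun b ε hε => ?_⟩
      have h5 : Tendsto (fun k : ℕ => (1 / 2 : ℝ) ^ k * r' b) atTop (𝓝 0) := by
        have := (tendsto_pow_atTop_nhds_zero_of_lt_one (show (0 : ℝ) ≤ 1 / 2 by norm_num)
          (show (1 / 2 : ℝ) < 1 by norm_num)).mul_const (r' b)
        rwa [zero_mul] at this
      obtain ⟨N, hN⟩ := eventually_atTop.1 (h5.eventually_le_const hε)
      refine ⟨N, fun k hk => ?_⟩
      rw [ha1]
      have := hα.2 k b
      have := hN k hk
      linarith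
    have h0 := hχI a haI
    obtain ⟨N, hN⟩ := hcau (1 / 4) (by norm_num)
    have h6 : ‖(χ'.comp (cst r' hr'.2)) (α (max N 2))‖ ≤ 1 / 4 := by
      have e1 : (χ'.comp (cst r' hr'.2)) (α (max N 2)) =
          -(χ' (a - cst r' hr'.2 (α (max N 2)))) := by
        rw [map_sub, h0, zero_sub, neg_neg]
        rfl
      rw [e1, norm_neg]
      refine (hχ' _).trans ?_
      refine le_of_tendsto (PP_spec p r' hr'.2 hpr (a - cst r' hr'.2 (α (max N 2)))) ?_
      rw [eventually_atTop]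
      refine ⟨N, fun k hk => ?_⟩
      have e2 : (a - cst r' hr'.2 (α (max N 2))).1 k = α k - α (max N 2) := by
        have e3 : (a - cst r' hr'.2 (α (max N 2))).1 k =
          a.1 k - (cst r' hr'.2 (α (max N 2))).1 k := rfl
        rw [e3, ha1, cst_apply]
      rw [e2]
      exact (hpr _).trans (hN k hk _ (le_max_left _ _))
    have h7 := hα1 (max N 2)
    have h8 : (1 / 2 : ℝ) ^ (max N 2) ≤ 1 / 4 := by
      calc (1 / 2 : ℝ) ^ (max N 2) ≤ (1 / 2) ^ 2 :=
            pow_le_pow_of_le_one (by norm_num) (by norm_num) (le_max_right _ _)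
        _ = 1 / 4 := by norm_num
    have h9 : ‖(1 : ℂ)‖ ≤ ‖(χ'.comp (cst r' hr'.2)) (α (max N 2))‖ +
        ‖(χ'.comp (cst r' hr'.2)) (α (max N 2)) - 1‖ := by
      have e4 : (1 : ℂ) = (χ'.comp (cst r' hr'.2)) (α (max N 2)) -
        ((χ'.comp (cst r' hr'.2)) (α (max N 2)) - 1) := by ring
      calc ‖(1 : ℂ)‖ = ‖(χ'.comp (cst r' hr'.2)) (α (max N 2)) -
            ((χ'.comp (cst r' hr'.2)) (α (max N 2)) - 1)‖ := by rw [← e4]
        _ ≤ _ := norm_sub_le _ _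
    rw [norm_one] at h9
    linarith
  obtain ⟨α, ⟨C, hC⟩, hα⟩ := key
  have h5 := PP_spec p r' hr'.2 hpr (1 - α)
  obtain ⟨N0, hN0⟩ := eventually_atTop.1 (h5.eventually_lt_const hα)
  have hcau : Cau r' α.1 := α.2
  choose Nf hNf using fun k : ℕ => hcau ((1 / 2) ^ k) (by positivity)
  obtain ⟨φ, hφ⟩ : ∃ φ : ℕ → ℕ, φ = fun k => N0 + ∑ j ∈ Finset.range (k + 1), Nf j := ⟨_, rfl⟩
  have hφ0 : ∀ k, N0 ≤ φ k := fun k => by rw [hφ]; exact Nat.le_add_right _ _
  have hφ1 : ∀ k, Nf k ≤ φ k := fun k => by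
    rw [hφ]
    have : Nf k ≤ ∑ j ∈ Finset.range (k + 1), Nf j :=
      Finset.single_le_sum (f := Nf) (fun _ _ => Nat.zero_le _)
        (Finset.mem_range.2 (Nat.lt_succ_self k))
    exact this.trans (Nat.le_add_left _ _)
  have hφ2 : ∀ k, φ k ≤ φ (k + 1) := fun k => by
    rw [hφ]
    show N0 + ∑ j ∈ Finset.range (k + 1), Nf j ≤ N0 + ∑ j ∈ Finset.range (k + 1 + 1), Nf j
    rw [Finset.sum_range_succ _ (k + 1)]
    omega
  refine ⟨fun k => α.1 (φ k), C, ⟨fun k => ?_, fun k b => ?_⟩, fun k => ?_⟩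
  · exact (hrr _).trans (hNf k _ ((hφ1 k).trans (hφ2 k)) _ (hφ1 k))
  · apply le_of_forall_pos_le_add
    intro ε hε
    obtain ⟨N, hN⟩ := hC b ε hε
    have m1 := hN (max N (Nf k)) (le_max_left _ _)
    have m2 := hNf k (φ k) (hφ1 k) (max N (Nf k)) (le_max_right _ _)
    have e : α.1 (φ k) * b = α.1 (max N (Nf k)) * b +
        (α.1 (φ k) - α.1 (max N (Nf k))) * b := by ring
    show r (α.1 (φ k) * b) ≤ _
    rw [e]
    have a1 : r (α.1 (max N (Nf k)) * b) ≤ C * q b + ε := (hrr _).trans m1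
    have a2 : r ((α.1 (φ k) - α.1 (max N (Nf k))) * b) ≤ (1 / 2) ^ k * r b :=
      (hr.2 _ _).trans (mul_le_mul_of_nonneg_right ((hrr _).trans m2) (apply_nonneg _ _))
    exact (map_add_le_add r _ _).trans (by linarith)
  · exact hN0 (φ k) (hφ0 k)

end Pool.Agent.Helper71.SL
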